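import Pool.Agent.TH923.DM.Defs

/-!
# Nested families of rows (job DM-ROWS of helper923)
-/

set_option autoImplicit false

namespace Pool.Agent.TH923.DM

universe w

namespace RowsX

/-- applying a ring homomorphism to the values is semilinear -/
lemma span_map {L X : Type*} [Field L] (φ : L →+* L) {S : Set (X → L)} {f : X → L}
    (hf : f ∈ Submodule.span L S) :
    (fun x => φ (f x)) ∈ Submodule.span L ((fun (g : X → L) => fun x => φ (g x)) '' S) := by
  induction hf using Submodule.span_induction with
  | mem g hg => exact Submodule.subset_span ⟨g, hg, rfl⟩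
  | zero =>
    have : (fun x => φ ((0 : X → L) x)) = 0 := by
      funext x
      simp
    rw [this]
    exact Submodule.zero_mem _
  | add a b _ _ ha hb =>
    have : (fun x => φ ((a + b) x)) = (fun x => φ (a x)) + fun x => φ (b x) := by
      funext x
      simp
    rw [this]
    exact Submodule.add_mem _ ha hb
  | smul c a _ ha =>
    have : (fun x => φ ((c • a) x)) = φ c • fun x => φ (a x) := by
      funext x
      simp
    rw [this]
    exact Submodule.smul_mem _ _ ha

section pivots

variable {L V : Type*} [Field L] [AddCommGroup V] [Module L V]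

/-- the pivots of a sequence of vectors -/
def Piv (L : Type*) {V : Type*} [Field L] [AddCommGroup V] [Module L V] (w : ℕ → V) : Set ℕ :=
  {k | w k ∉ Submodule.span L (w '' Set.Iio k)}

lemma piv_span (w : ℕ → V) (k : ℕ) :
    w k ∈ Submodule.span L (w '' {j | j ∈ Piv L w ∧ j ≤ k}) := by
  induction k using Nat.strong_induction_on with
  | _ k ih =>
    by_cases hk : k ∈ Piv L w
    · exact Submodule.subset_span ⟨k, ⟨hk, le_rfl⟩, rfl⟩
    · have h1 : w k ∈ Submodule.span L (w '' Set.Iio k) := by
        by_contra h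
        exact hk h
      refine (Submodule.span_le.2 ?_) h1
      rintro _ ⟨j, hj, rfl⟩
      refine Submodule.span_mono ?_ (ih j hj)
      rintro _ ⟨i, ⟨hi, hij⟩, rfl⟩
      exact ⟨i, ⟨hi, hij.trans (le_of_lt hj)⟩, rfl⟩

lemma piv_li (w : ℕ → V) : LinearIndependent L (fun k : Piv L w => w k) := by
  classical
  rw [linearIndependent_iff']
  intro s g hg
  by_contra hcon
  push Not at hcon
  obtain ⟨i, hi, hgi⟩ := hcon
  set t := s.filter (fun i => g i ≠ 0) with ht
  have hne : t.Nonempty := ⟨i, Finset.mem_filter.2 ⟨hi, hgi⟩⟩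
  set m := t.max' hne with hm
  have hmt : m ∈ t := t.max'_mem hne
  obtain ⟨hms, hgm⟩ := Finset.mem_filter.1 hmt
  refine m.2 ?_
  have h1 : ∑ j ∈ s.erase m, g j • w j ∈ Submodule.span L (w '' Set.Iio (m : ℕ)) := by
    refine Submodule.sum_mem _ fun j hj => ?_
    obtain ⟨hjm, hjs⟩ := Finset.mem_erase.1 hj
    by_cases hgj : g j = 0
    · rw [hgj, zero_smul]
      exact Submodule.zero_mem _
    · refine Submodule.smul_mem _ _ (Submodule.subset_span ⟨j, ?_, rfl⟩)
      have h2 : j ≤ m := t.le_max' j (Finset.mem_filter.2 ⟨hjs, hgj⟩)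
      exact lt_of_le_of_ne h2 fun h => hjm (Subtype.ext (congrArg Subtype.val h))
  have h2 : g m • w m = - ∑ j ∈ s.erase m, g j • w j := by
    rw [eq_neg_iff_add_eq_zero, Finset.add_sum_erase s (fun j => g j • w j) hms]
    exact hg
  have h3 : w m = (g m)⁻¹ • (g m • w m) := by
    rw [smul_smul, inv_mul_cancel₀ hgm, one_smul]
  rw [h3, h2]
  exact Submodule.smul_mem _ _ (Submodule.neg_mem _ h1)

end pivots

/-- the functions `x ↦ x ^ (p ^ m)`, `m < N`, on a space with `p ^ N` elements -/
lemma pow_li (p : ℕ) [hp : Fact p.Prime] (L : Type*) [Field L] [Algebra (ZMod p) L]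
    (M : Submodule (ZMod p) L) [FiniteDimensional (ZMod p) M] :
    LinearIndependent L (fun (m : Fin (Module.finrank (ZMod p) M)) (x : M) =>
      (x : L) ^ (p ^ (m : ℕ))) := by
  classical
  have hp1 : 1 < p := hp.out.one_lt
  obtain ⟨N, hN⟩ : ∃ N, Module.finrank (ZMod p) M = N := ⟨_, rfl⟩
  rw [hN, Fintype.linearIndependent_iff]
  intro c hc
  have hfin : Finite M := Module.finite_of_finite (ZMod p)
  have : Fintype M := Fintype.ofFinite M
  have hcard : Fintype.card M = p ^ N := by
    rw [Module.card_eq_pow_finrank (K := ZMod p) (V := M), ZMod.card, hN]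
  set P : Polynomial L := ∑ m : Fin N, Polynomial.C (c m) * Polynomial.X ^ (p ^ (m : ℕ)) with hP
  have hev : ∀ x : M, P.eval (x : L) = 0 := by
    intro x
    have h1 := congrFun hc x
    rw [Finset.sum_apply] at h1
    rw [hP, Polynomial.eval_finsetSum]
    simpa using h1
  have hdeg : P.natDegree < p ^ N ∨ P = 0 := by
    by_cases h0 : N = 0
    · right
      rw [hP]
      have : IsEmpty (Fin N) := by rw [h0]; infer_instance
      simp
    · left
      refine lt_of_le_of_lt (Polynomial.natDegree_sum_le_of_forall_le _ _ (n := p ^ (N - 1)) ?_)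
        (Nat.pow_lt_pow_right hp1 (by omega))
      intro m _
      refine (Polynomial.natDegree_C_mul_X_pow_le _ _).trans ?_
      exact Nat.pow_le_pow_right hp1.le (by have := m.2; omega)
  have hP0 : P = 0 := by
    rcases hdeg with h | h
    · refine Polynomial.eq_zero_of_natDegree_lt_card_of_eval_eq_zero P
        (f := fun x : M => (x : L)) Subtype.val_injective hev ?_
      rwa [hcard]
    · exact h
  intro m
  have h2 := congrArg (fun Q => Q.coeff (p ^ (m : ℕ))) hP0
  simp only [hP, Polynomial.finsetSum_coeff, Polynomial.coeff_C_mul_X_pow,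
    Polynomial.coeff_zero] at h2
  rw [Finset.sum_eq_single m] at h2
  · simpa using h2
  · intro j _ hjm
    rw [if_neg]
    intro h
    exact hjm (Fin.ext (Nat.pow_right_injective hp.out.two_le h).symm)
  · intro h
    exact absurd (Finset.mem_univ m) h

end RowsX

open RowsX

theorem lemROWS : S_ROWS.{w} := by
  classical
  intro p hp L _ _ _ G _ _ _ M _ A hA hcardA
  obtain ⟨n, hn⟩ : ∃ n, Fintype.card G = n := ⟨_, rfl⟩
  rw [hn] at hcardA
  have hn0 : 0 < n := by rw [← hn]; exact Fintype.card_pos
  -- numbering of the group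
  obtain ⟨r, hr1⟩ : ∃ r : G ≃ Fin n, (r 1 : ℕ) = 0 := by
    let r0 : G ≃ Fin n := (Fintype.equivFin G).trans (finCongr hn)
    refine ⟨r0.trans (Equiv.swap (r0 1) ⟨0, hn0⟩), ?_⟩
    show ((Equiv.swap (r0 1) ⟨0, hn0⟩ (r0 1) : Fin n) : ℕ) = 0
    rw [Equiv.swap_apply_left]
  obtain ⟨W, hW'⟩ : ∃ W : ℕ → (M → L), ∀ k x, W k x =
      ((r.symm ⟨k % n, Nat.mod_lt _ hn0⟩) • (x : L)) ^ (p ^ (k / n)) :=
    ⟨fun k x => ((r.symm ⟨k % n, Nat.mod_lt _ hn0⟩) • (x : L)) ^ (p ^ (k / n)), fun _ _ => rfl⟩
  have hW : ∀ (σ : G) (l : ℕ), W (l * n + r σ) = fun x : M => (σ • (x : L)) ^ (p ^ l) := by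
    intro σ l
    funext x
    rw [hW']
    have h1 : (l * n + r σ) % n = r σ := by
      rw [Nat.mul_comm, Nat.mul_add_mod]
      exact Nat.mod_eq_of_lt (r σ).2
    have h2 : (l * n + r σ) / n = l := by
      rw [Nat.mul_comm, Nat.mul_add_div hn0, Nat.div_eq_of_lt (r σ).2, add_zero]
    have h3 : (⟨(l * n + r σ) % n, Nat.mod_lt _ hn0⟩ : Fin n) = r σ := Fin.ext h1
    rw [h3, h2, Equiv.symm_apply_apply]
  have hrep : ∀ k : ℕ, ∃ (σ : G) (l : ℕ), k = l * n + r σ ∧ l = k / n := by
    intro k
    refine ⟨r.symm ⟨k % n, Nat.mod_lt _ hn0⟩, k / n, ?_, rfl⟩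
    rw [Equiv.apply_symm_apply]
    show k = k / n * n + k % n
    rw [mul_comm]
    exact (Nat.div_add_mod k n).symm
  have hWs : ∀ k, W (k + n) = fun x => frobenius L p (W k x) := by
    intro k
    obtain ⟨σ, l, rfl, _⟩ := hrep k
    have : l * n + r σ + n = (l + 1) * n + r σ := by ring
    rw [this, hW, hW]
    funext x
    rw [frobenius_def, pow_succ, pow_mul]
  -- the pivots are nested
  have hnest : ∀ k, k ∉ Piv L W → k + n ∉ Piv L W := by
    intro k hk hk2
    apply hk2
    have h1 : W k ∈ Submodule.span L (W '' Set.Iio k) := by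
      by_contra h
      exact hk h
    have h2 := span_map (frobenius L p) h1
    rw [← hWs] at h2
    refine Submodule.span_mono ?_ h2
    rintro _ ⟨_, ⟨j, hj, rfl⟩, rfl⟩
    refine ⟨j + n, ?_, hWs j⟩
    have : j < k := hj
    show j + n < k + n
    omega
  -- the identity is a pivot
  have hone : ∀ l < A, l * n ∈ Piv L W := by
    intro l hl hcon
    have hF : ∀ k, W k ∈ Submodule.span L (W '' Set.Iio (l * n)) := by
      intro k
      induction k using Nat.strong_induction_on with
      | _ k ih =>
        by_cases hk : k < l * n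
        · exact Submodule.subset_span ⟨k, hk, rfl⟩
        by_cases hk2 : k < l * n + n
        · -- apply an element of the group
          obtain ⟨τ, l', hl', hl'2⟩ := hrep k
          have hll : l' = l := by
            rw [hl'2]
            have h3 : l ≤ k / n := (Nat.le_div_iff_mul_le hn0).2 (by omega)
            have h4 : k / n < l + 1 := (Nat.div_lt_iff_lt_mul hn0).2 (by rw [add_mul]; omega)
            omega
          subst hll
          have h0 : W (l' * n) = fun x : M => (x : L) ^ (p ^ l') := by
            have := hW 1 l'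
            rw [hr1, add_zero] at this
            rw [this]
            funext x
            rw [one_smul]
          rw [hl', hW]
          have h5 := span_map (MulSemiringAction.toRingHom G L τ) hcon
          rw [h0] at h5
          have h6 : (fun x : M => (MulSemiringAction.toRingHom G L τ) ((x : L) ^ (p ^ l'))) =
              fun x : M => (τ • (x : L)) ^ (p ^ l') := by
            funext x
            rw [MulSemiringAction.toRingHom_apply, smul_pow']
          rw [h6] at h5
          refine Submodule.span_mono ?_ h5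
          rintro _ ⟨_, ⟨j, hj, rfl⟩, rfl⟩
          obtain ⟨σ, i, hi, hi2⟩ := hrep j
          refine ⟨i * n + r (τ * σ), ?_, ?_⟩
          · have h7 : i < l' := by
              rw [hi2]
              exact (Nat.div_lt_iff_lt_mul hn0).2 hj
            have h8 : i * n + n ≤ l' * n := by
              have : (i + 1) * n ≤ l' * n := Nat.mul_le_mul_right n h7
              linarith [add_mul i 1 n]
            have h9 := (r (τ * σ)).2
            show i * n + (r (τ * σ) : ℕ) < l' * n
            omega
          · rw [hi, hW, hW]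
            funext x
            show ((τ * σ) • (x : L)) ^ p ^ i = τ • ((σ • (x : L)) ^ p ^ i)
            rw [smul_pow', mul_smul]
        · -- the Frobenius
          obtain ⟨k', rfl⟩ : ∃ k', k = k' + n := ⟨k - n, by omega⟩
          have h1 := span_map (frobenius L p) (ih k' (by omega))
          rw [← hWs] at h1
          refine (Submodule.span_le.2 ?_) h1
          rintro _ ⟨_, ⟨j, hj, rfl⟩, rfl⟩
          have hj' : j < l * n := hj
          have h2 := ih (j + n) (by omega)
          rw [hWs] at h2
          exact h2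
    have hli := pow_li p L M
    have hle : Module.finrank (ZMod p) M ≤ l * n := by
      have h1 : ∀ m : Fin (Module.finrank (ZMod p) M), (fun (x : M) => (x : L) ^ (p ^ (m : ℕ))) ∈
          Submodule.span L (W '' Set.Iio (l * n)) := by
        intro m
        have h2 := hF ((m : ℕ) * n + r 1)
        rw [hW] at h2
        simpa using h2
      have h3 : LinearIndependent L (fun m : Fin (Module.finrank (ZMod p) M) =>
          (⟨fun (x : M) => (x : L) ^ (p ^ (m : ℕ)), h1 m⟩ :
            Submodule.span L (W '' Set.Iio (l * n)))) := by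
        refine LinearIndependent.of_comp (Submodule.subtype _) ?_
        exact hli
      have hfin : (W '' Set.Iio (l * n)).Finite := (Set.finite_Iio _).image _
      have : FiniteDimensional L (Submodule.span L (W '' Set.Iio (l * n))) :=
        FiniteDimensional.span_of_finite L hfin
      have h4 := h3.fintype_card_le_finrank
      rw [Fintype.card_fin] at h4
      refine h4.trans ?_
      have h5 : W '' Set.Iio (l * n) = ((Finset.range (l * n)).image W : Set (M → L)) := by
        ext f
        simp
      rw [h5]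
      refine (finrank_span_finset_le_card _).trans ?_
      exact Finset.card_image_le.trans (by rw [Finset.card_range])
    have : l * n ≤ A * n := Nat.mul_le_mul_right n hl.le
    rw [mul_comm] at hcardA
    omega
  -- the lengths
  have hlen : ∀ σ : G, ∃ ℓ : ℕ, ℓ ≤ A ∧ ∀ l < A, (l * n + r σ ∈ Piv L W ↔ l < ℓ) := by
    intro σ
    have hdown : ∀ l l', l ≤ l' → l' * n + r σ ∈ Piv L W → l * n + r σ ∈ Piv L W := by
      intro l l' hll
      induction hll with
      | refl => exact id
      | step _ ih =>
        rename_i m _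
        intro h
        apply ih
        by_contra hcon
        have := hnest _ hcon
        have e : m * n + r σ + n = (m + 1) * n + r σ := by ring
        rw [e] at this
        exact this h
    by_cases h : ∃ l, l < A ∧ l * n + r σ ∉ Piv L W
    · refine ⟨Nat.find h, (Nat.find_spec h).1.le, fun l hl => ⟨fun h1 => ?_, fun h1 => ?_⟩⟩
      · by_contra hcon
        push Not at hcon
        exact (Nat.find_spec h).2 (hdown _ _ hcon h1)
      · by_contra hcon
        exact Nat.find_min h h1 ⟨hl, hcon⟩
    · push Not at h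
      exact ⟨A, le_rfl, fun l hl => ⟨fun _ => hl, fun _ => h l hl⟩⟩
  choose ℓ hℓA hℓ using hlen
  have hrow : (fun (ρ : Σ σ : G, Fin (ℓ σ)) (x : M) => (ρ.1 • (x : L)) ^ (p ^ (ρ.2 : ℕ))) =
      fun ρ : Σ σ : G, Fin (ℓ σ) => W ((ρ.2 : ℕ) * n + r ρ.1) := by
    funext ρ
    rw [hW]
  refine ⟨ℓ, ?_, hℓA, ?_, ?_⟩
  · refine le_antisymm (hℓA 1) ?_
    by_contra hcon
    push Not at hcon
    have h1 := (hℓ 1 (ℓ 1) hcon).1
    rw [hr1, add_zero] at h1
    exact lt_irrefl _ (h1 (hone _ hcon))
  · rw [hrow]
    have hmem : ∀ ρ : Σ σ : G, Fin (ℓ σ), (ρ.2 : ℕ) * n + r ρ.1 ∈ Piv L W := by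
      intro ρ
      have h1 : (ρ.2 : ℕ) < ℓ ρ.1 := ρ.2.2
      exact (hℓ ρ.1 ρ.2 (h1.trans_le (hℓA ρ.1))).2 h1
    have h1 := (piv_li (L := L) W).comp (fun ρ : Σ σ : G, Fin (ℓ σ) =>
      (⟨(ρ.2 : ℕ) * n + r ρ.1, hmem ρ⟩ : Piv L W)) ?_
    · exact h1
    · rintro ⟨σ, l⟩ ⟨σ', l'⟩ h
      have h2 : (l : ℕ) * n + r σ = l' * n + r σ' := congrArg Subtype.val h
      have h3 : (r σ : ℕ) = r σ' := by
        have : ((l : ℕ) * n + r σ) % n = (l' * n + r σ') % n := by rw [h2]
        rwa [Nat.mul_comm, Nat.mul_add_mod, Nat.mod_eq_of_lt (r σ).2, Nat.mul_comm,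
          Nat.mul_add_mod, Nat.mod_eq_of_lt (r σ').2] at this
      have h4 : σ = σ' := r.injective (Fin.ext h3)
      subst h4
      have h5 : (l : ℕ) = l' := by
        have h6 : (l : ℕ) * n = l' * n := by omega
        exact Nat.eq_of_mul_eq_mul_right hn0 h6
      have h7 : l = l' := Fin.ext h5
      rw [h7]
  · intro σ l hl
    rw [hrow, ← hW]
    refine Submodule.span_mono ?_ (piv_span (L := L) W (l * n + r σ))
    rintro _ ⟨j, ⟨hj, hjl⟩, rfl⟩
    obtain ⟨τ, i, hi, hi2⟩ := hrep j
    have hiA : i < A := by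
      rw [hi2]
      refine (Nat.div_lt_iff_lt_mul hn0).2 ?_
      have h9 := (r σ).2
      have h8 : (l + 1) * n ≤ A * n := Nat.mul_le_mul_right n hl
      rw [add_mul] at h8
      omega
    rw [hi] at hj
    have h1 := (hℓ τ i hiA).1 hj
    exact ⟨⟨τ, ⟨i, h1⟩⟩, by rw [hi]⟩

end Pool.Agent.TH923.DM
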