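import Pool.Agent.TH490.StmF

set_option autoImplicit false

namespace Pool.Agent.TH737.HUB

open Pool.Agent.TH490
open Finset Classical

noncomputable section

/-- injectivity, as a predicate without decidability instances -/
def Inj {A B : Type} (τ : A → B) : Prop := Function.Injective τ

/-- sum over the injective tuples of the number of completions -/
def Fq {J P Z : Type} [Fintype J] [Fintype Z] (q : ℕ) (U : (Fin q → P) → Z → Prop)
    (f : J → P) : ℕ :=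
  ∑ τ ∈ (univ.filter (fun τ : Fin q → J => Inj τ)),
    (univ.filter (fun z : Z => U (fun j => f (τ j)) z)).card

lemma card_prod {P Q : Type} [Fintype P] [Fintype Q] (R : P → Q → Prop) :
    (univ.filter (fun x : P × Q => R x.1 x.2)).card
      = ∑ y : P, (univ.filter (fun z : Q => R y z)).card := by
  simp only [Finset.card_filter]
  rw [Fintype.sum_prod_type]

lemma avg {J P Z : Type} [Fintype J] [DecidableEq J] [Fintype P] [Nonempty P] [Fintype Z] (hone : P1_one) (q : ℕ)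
    (U : (Fin q → P) → Z → Prop) (τ : Fin q → J) (hτ : Function.Injective τ) :
    (∑ f : J → P, (univ.filter (fun z : Z => U (fun j => f (τ j)) z)).card) * Fintype.card P ^ q
      = (∑ z : Z, (univ.filter (fun t : Fin q → P => U t z)).card)
          * Fintype.card P ^ Fintype.card J := by
  have h1 : ∑ f : J → P, (univ.filter (fun z : Z => U (fun j => f (τ j)) z)).card
      = ∑ z : Z, (univ.filter (fun f : J → P => U (fun j => f (τ j)) z)).card := by
    simp only [Finset.card_filter]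
    rw [Finset.sum_comm]
  rw [h1, Finset.sum_mul, Finset.sum_mul]
  refine Finset.sum_congr rfl fun z _ => ?_
  exact hone J P q (fun t => U t z) τ hτ

lemma avgF {J P Z : Type} [Fintype J] [DecidableEq J] [Fintype P] [Nonempty P] [Fintype Z]
    (hone : P1_one) (q : ℕ)
    (U : (Fin q → P) → Z → Prop) :
    (∑ f : J → P, Fq q U f) * Fintype.card P ^ q
      ≤ Fintype.card J ^ q * ((∑ z : Z, (univ.filter (fun t : Fin q → P => U t z)).card)
          * Fintype.card P ^ Fintype.card J) := by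
  unfold Fq
  rw [Finset.sum_comm, Finset.sum_mul]
  refine le_trans (le_of_eq (Finset.sum_congr rfl
    (fun τ hτ => avg hone q U τ (Finset.mem_filter.mp hτ).2))) ?_
  rw [Finset.sum_const, smul_eq_mul]
  refine Nat.mul_le_mul_right _ ?_
  refine (Finset.card_filter_le _ _).trans (le_of_eq ?_)
  rw [Finset.card_univ, Fintype.card_fun, Fintype.card_fin]

lemma avgR {J P Z : Type} [Fintype J] [DecidableEq J] [Fintype P] [Nonempty P] [Fintype Z]
    (hone : P1_one) (q : ℕ)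
    (U : (Fin q → P) → Z → Prop) (K : ℝ)
    (hK : ((∑ z : Z, (univ.filter (fun t : Fin q → P => U t z)).card : ℕ) : ℝ) ≤ K) :
    ∑ f : J → P, (Fq q U f : ℝ)
      ≤ ((Fintype.card J : ℝ) ^ q * K / (Fintype.card P : ℝ) ^ q)
          * (Fintype.card P : ℝ) ^ Fintype.card J := by
  have hp : (0 : ℝ) < Fintype.card P := by exact_mod_cast Fintype.card_pos
  have h := avgF (J := J) hone q U
  have h' : (∑ f : J → P, (Fq q U f : ℝ)) * (Fintype.card P : ℝ) ^ q
      ≤ (Fintype.card J : ℝ) ^ q *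
        (((∑ z : Z, (univ.filter (fun t : Fin q → P => U t z)).card : ℕ) : ℝ)
          * (Fintype.card P : ℝ) ^ Fintype.card J) := by
    exact_mod_cast h
  have h2 : (∑ f : J → P, (Fq q U f : ℝ)) * (Fintype.card P : ℝ) ^ q
      ≤ (Fintype.card J : ℝ) ^ q * (K * (Fintype.card P : ℝ) ^ Fintype.card J) := by
    refine h'.trans ?_
    gcongr
  have hq : (0 : ℝ) < (Fintype.card P : ℝ) ^ q := by positivity
  rw [div_mul_eq_mul_div, le_div_iff₀ hq]
  linarith

lemma cardPos (N : ℕ) : Fintype.card (Pos N) = N ^ 3 := by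
  simp [Pos]

lemma Ka (N : ℕ) : (∑ _z : Unit, (@Finset.filter _ (fun t : Fin 2 → Pos N => t 0 = t 1)
    (fun _ => Classical.propDecidable _) univ).card) ≤ N ^ 3 := by
  rw [Finset.univ_unique, Finset.sum_singleton, ← cardPos N, ← Finset.card_univ]
  refine Finset.card_le_card_of_injOn (fun t => t 0) (fun _ _ => by simp) ?_
  intro t ht s hs h
  simp only [coe_filter, mem_univ, true_and, Set.mem_ofPred_eq] at ht hs
  simp only at h
  funext i
  fin_cases i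
  · exact h
  · show t 1 = s 1
    rw [← ht, ← hs]; exact h

lemma Kb (N : ℕ) (c : ℝ)
    (hc : ∀ y : Pos N,
      ((univ.filter (fun t : Pos N × Pos N => Col y t.1 t.2)).card : ℝ) ≤ c * (N : ℝ) ^ 3) :
    ((∑ _z : Unit, (univ.filter (fun t : Fin 3 → Pos N => Col (t 0) (t 1) (t 2))).card : ℕ) : ℝ)
      ≤ (N : ℝ) ^ 3 * (c * (N : ℝ) ^ 3) := by
  rw [Finset.univ_unique, Finset.sum_singleton]
  have h1 : (univ.filter (fun t : Fin 3 → Pos N => Col (t 0) (t 1) (t 2))).card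
      ≤ (univ.filter (fun x : Pos N × (Pos N × Pos N) => Col x.1 x.2.1 x.2.2)).card := by
    refine Finset.card_le_card_of_injOn (fun t => (t 0, (t 1, t 2))) ?_ ?_
    · intro t ht
      simpa using ht
    · intro t _ s _ h
      simp only [Prod.mk.injEq] at h
      funext i
      fin_cases i
      · exact h.1
      · exact h.2.1
      · exact h.2.2
  have h2 := card_prod (fun (y : Pos N) (t : Pos N × Pos N) => Col y t.1 t.2)
  have h3 : ((univ.filter (fun x : Pos N × (Pos N × Pos N) => Col x.1 x.2.1 x.2.2)).card : ℝ)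
      ≤ (N : ℝ) ^ 3 * (c * (N : ℝ) ^ 3) := by
    have : (univ.filter (fun x : Pos N × (Pos N × Pos N) => Col x.1 x.2.1 x.2.2)).card
      = ∑ y : Pos N, (univ.filter (fun t : Pos N × Pos N => Col y t.1 t.2)).card := h2
    rw [this]
    push_cast
    calc ∑ y : Pos N, ((univ.filter (fun t : Pos N × Pos N => Col y t.1 t.2)).card : ℝ)
        ≤ ∑ _y : Pos N, c * (N : ℝ) ^ 3 := Finset.sum_le_sum fun y _ => hc y
      _ = (N : ℝ) ^ 3 * (c * (N : ℝ) ^ 3) := by
        rw [Finset.sum_const, Finset.card_univ, cardPos, nsmul_eq_mul]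
        push_cast
        ring
  exact (Nat.cast_le.mpr h1).trans h3

lemma cnt4 (N : ℕ) (B : ℝ)
    (hc : ∀ y : Pos N,
      ((univ.filter (fun t : Pos N × Pos N × Pos N => Cop y t.1 t.2.1 t.2.2)).card : ℝ) ≤ B) :
    ((univ.filter (fun x : Pos N × (Pos N × Pos N × Pos N) =>
      Cop x.1 x.2.1 x.2.2.1 x.2.2.2)).card : ℝ) ≤ (N : ℝ) ^ 3 * B := by
  have h2 := card_prod (fun (y : Pos N) (t : Pos N × Pos N × Pos N) => Cop y t.1 t.2.1 t.2.2)
  have : (univ.filter (fun x : Pos N × (Pos N × Pos N × Pos N) =>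
      Cop x.1 x.2.1 x.2.2.1 x.2.2.2)).card
      = ∑ y : Pos N,
        (univ.filter (fun t : Pos N × Pos N × Pos N => Cop y t.1 t.2.1 t.2.2)).card := h2
  rw [this]
  push_cast
  calc ∑ y : Pos N,
        ((univ.filter (fun t : Pos N × Pos N × Pos N => Cop y t.1 t.2.1 t.2.2)).card : ℝ)
      ≤ ∑ _y : Pos N, B := Finset.sum_le_sum fun y _ => hc y
    _ = (N : ℝ) ^ 3 * B := by
        rw [Finset.sum_const, Finset.card_univ, cardPos, nsmul_eq_mul]
        push_cast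
        ring

lemma Kc (N : ℕ) (B : ℝ)
    (hc : ∀ y : Pos N,
      ((univ.filter (fun t : Pos N × Pos N × Pos N => Cop y t.1 t.2.1 t.2.2)).card : ℝ) ≤ B) :
    ((∑ _z : Unit,
      (univ.filter (fun t : Fin 4 → Pos N => Cop (t 0) (t 1) (t 2) (t 3))).card : ℕ) : ℝ)
      ≤ (N : ℝ) ^ 3 * B := by
  rw [Finset.univ_unique, Finset.sum_singleton]
  refine le_trans (Nat.cast_le.mpr ?_) (cnt4 N B hc)
  refine Finset.card_le_card_of_injOn (fun t => (t 0, (t 1, t 2, t 3))) ?_ ?_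
  · intro t ht
    simpa using ht
  · intro t _ s _ h
    simp only [Prod.mk.injEq] at h
    funext i
    fin_cases i
    · exact h.1
    · exact h.2.1
    · exact h.2.2.1
    · exact h.2.2.2

lemma Kd (N : ℕ) (B : ℝ)
    (hc : ∀ y : Pos N,
      ((univ.filter (fun t : Pos N × Pos N × Pos N => Cop y t.1 t.2.1 t.2.2)).card : ℝ) ≤ B) :
    ((∑ z : Pos N × Pos N,
      (univ.filter (fun t : Fin 2 → Pos N => Cop (t 0) (t 1) z.1 z.2)).card : ℕ) : ℝ)
      ≤ (N : ℝ) ^ 3 * B := by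
  rw [← card_prod (fun (z : Pos N × Pos N) (t : Fin 2 → Pos N) => Cop (t 0) (t 1) z.1 z.2)]
  refine le_trans (Nat.cast_le.mpr ?_) (cnt4 N B hc)
  refine Finset.card_le_card_of_injOn (fun x => (x.2 0, (x.2 1, x.1.1, x.1.2))) ?_ ?_
  · intro t ht
    simpa using ht
  · intro t _ s _ h
    simp only [Prod.mk.injEq] at h
    refine Prod.ext (Prod.ext h.2.2.1 h.2.2.2) ?_
    funext i
    fin_cases i
    · exact h.1
    · exact h.2.1

lemma Ke (N : ℕ) (B : ℝ)
    (hc : ∀ y : Pos N,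
      ((univ.filter (fun t : Pos N × Pos N × Pos N => Cop y t.1 t.2.1 t.2.2)).card : ℝ) ≤ B) :
    ((∑ z : Pos N,
      (univ.filter (fun t : Fin 3 → Pos N => Cop (t 0) (t 1) (t 2) z)).card : ℕ) : ℝ)
      ≤ (N : ℝ) ^ 3 * B := by
  rw [← card_prod (fun (z : Pos N) (t : Fin 3 → Pos N) => Cop (t 0) (t 1) (t 2) z)]
  refine le_trans (Nat.cast_le.mpr ?_) (cnt4 N B hc)
  refine Finset.card_le_card_of_injOn (fun x => (x.2 0, (x.2 1, x.2 2, x.1))) ?_ ?_
  · intro t ht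
    simpa using ht
  · intro t _ s _ h
    simp only [Prod.mk.injEq] at h
    refine Prod.ext h.2.2.2 ?_
    funext i
    fin_cases i
    · exact h.1
    · exact h.2.1
    · exact h.2.2.1

lemma Fq_unit {J P : Type} [Fintype J] (q : ℕ) (U : (Fin q → P) → Prop) (f : J → P) :
    Fq q (fun t (_ : Unit) => U t) f
      = (univ.filter (fun τ : Fin q → J => Inj τ ∧ U (fun j => f (τ j)))).card := by
  unfold Fq
  rw [← Finset.filter_filter, Finset.card_filter (fun τ : Fin q → J => U (fun j => f (τ j)))]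
  refine Finset.sum_congr rfl fun τ _ => ?_
  by_cases h : U (fun j => f (τ j))
  · simp [h]
  · simp [h]

lemma sum_le_Fq {J P Z A : Type} [Fintype J] [Fintype Z] [Fintype A] (q : ℕ)
    (U : (Fin q → P) → Z → Prop) (f : J → P) (S : Finset A) (φ : A → Fin q → J)
    (hφ : Set.InjOn φ S) (hinj : ∀ a ∈ S, Function.Injective (φ a)) :
    ∑ a ∈ S, (univ.filter (fun z : Z => U (fun j => f (φ a j)) z)).card ≤ Fq q U f := by
  unfold Fq
  rw [← Finset.sum_image (f := fun τ : Fin q → J =>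
    (univ.filter (fun z : Z => U (fun j => f (τ j)) z)).card) hφ]
  refine Finset.sum_le_sum_of_subset ?_
  intro τ hτ
  rw [Finset.mem_image] at hτ
  obtain ⟨a, ha, rfl⟩ := hτ
  rw [Finset.mem_filter]
  exact ⟨mem_univ _, hinj a ha⟩

lemma inj2 {J : Type} {a b : J} (h : a ≠ b) : Function.Injective (![a, b] : Fin 2 → J) := by
  intro i j hij
  fin_cases i <;> fin_cases j <;> simp_all

lemma inj3 {J : Type} {a b c : J} (h : a ≠ b) (h' : a ≠ c) (h'' : b ≠ c) :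
    Function.Injective (![a, b, c] : Fin 3 → J) := by
  intro i j hij
  fin_cases i <;> fin_cases j <;> simp_all

lemma inj4 {J : Type} {a b c d : J} (h1 : a ≠ b) (h2 : a ≠ c) (h3 : a ≠ d) (h4 : b ≠ c)
    (h5 : b ≠ d) (h6 : c ≠ d) :
    Function.Injective (![a, b, c, d] : Fin 4 → J) := by
  intro i j hij
  fin_cases i <;> fin_cases j <;> simp_all

/-- the deletion step -/
lemma deletion (N h : ℕ) (f : Fin (2 * h) → Pos N)
    (hX : (Fq 2 (fun (t : Fin 2 → Pos N) (_ : Unit) => t 0 = t 1) f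
      + Fq 3 (fun (t : Fin 3 → Pos N) (_ : Unit) => Col (t 0) (t 1) (t 2)) f
      + Fq 4 (fun (t : Fin 4 → Pos N) (_ : Unit) => Cop (t 0) (t 1) (t 2) (t 3)) f) ≤ h) :
    ∃ e : Fin h → Fin (2 * h), Function.Injective e ∧
      Function.Injective (fun i => f (e i)) ∧
    (∀ i j l, i ≠ j → i ≠ l → j ≠ l → ¬ Col (f (e i)) (f (e j)) (f (e l))) ∧
    (∀ i j l m, i ≠ j → i ≠ l → i ≠ m → j ≠ l → j ≠ m → l ≠ m →
      ¬ Cop (f (e i)) (f (e j)) (f (e l)) (f (e m))) := by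
  rw [Fq_unit, Fq_unit, Fq_unit] at hX
  beta_reduce at hX
  set B2 := univ.filter (fun τ : Fin 2 → Fin (2 * h) => Inj τ ∧ f (τ 0) = f (τ 1))
    with hB2
  set B3 := univ.filter (fun τ : Fin 3 → Fin (2 * h) => Inj τ ∧
    Col (f (τ 0)) (f (τ 1)) (f (τ 2))) with hB3
  set B4 := univ.filter (fun τ : Fin 4 → Fin (2 * h) => Inj τ ∧
    Cop (f (τ 0)) (f (τ 1)) (f (τ 2)) (f (τ 3))) with hB4
  set D : Finset (Fin (2 * h)) := B2.image (fun τ => τ 0) ∪ B3.image (fun τ => τ 0) ∪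
    B4.image (fun τ => τ 0) with hD
  have hDc : D.card ≤ h := by
    calc D.card ≤ (B2.image (fun τ => τ 0) ∪ B3.image (fun τ => τ 0)).card
          + (B4.image (fun τ => τ 0)).card := Finset.card_union_le _ _
      _ ≤ (B2.image (fun τ => τ 0)).card + (B3.image (fun τ => τ 0)).card
          + (B4.image (fun τ => τ 0)).card := by
          gcongr
          exact Finset.card_union_le _ _
      _ ≤ B2.card + B3.card + B4.card := by
          gcongr <;> exact Finset.card_image_le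
      _ ≤ h := by
          refine le_trans (le_of_eq ?_) hX
          congr!
  have hcompl : h ≤ (Dᶜ).card := by
    rw [Finset.card_compl, Fintype.card_fin]
    omega
  obtain ⟨S, hS, hSc⟩ := Finset.exists_subset_card_eq hcompl
  refine ⟨fun i => S.orderEmbOfFin hSc i, (S.orderEmbOfFin hSc).injective, ?_, ?_, ?_⟩
  all_goals
    have hmem : ∀ i, S.orderEmbOfFin hSc i ∉ D := fun i => by
      have := hS (Finset.orderEmbOfFin_mem S hSc i)
      rwa [Finset.mem_compl] at this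
    have hne : ∀ i j, i ≠ j → S.orderEmbOfFin hSc i ≠ S.orderEmbOfFin hSc j :=
      fun i j hij h' => hij ((S.orderEmbOfFin hSc).injective h')
  · intro i j hij
    by_contra hne'
    refine hmem i ?_
    rw [hD, Finset.mem_union, Finset.mem_union]
    refine Or.inl (Or.inl ?_)
    rw [Finset.mem_image]
    refine ⟨![S.orderEmbOfFin hSc i, S.orderEmbOfFin hSc j], ?_, rfl⟩
    rw [hB2, Finset.mem_filter]
    exact ⟨mem_univ _, inj2 (hne i j hne'), hij⟩
  · intro i j l hij hil hjl hcol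
    refine hmem i ?_
    rw [hD, Finset.mem_union, Finset.mem_union]
    refine Or.inl (Or.inr ?_)
    rw [Finset.mem_image]
    refine ⟨![S.orderEmbOfFin hSc i, S.orderEmbOfFin hSc j, S.orderEmbOfFin hSc l], ?_, rfl⟩
    rw [hB3, Finset.mem_filter]
    exact ⟨mem_univ _, inj3 (hne i j hij) (hne i l hil) (hne j l hjl), hcol⟩
  · intro i j l m h1 h2 h3 h4 h5 h6 hcop
    refine hmem i ?_
    rw [hD, Finset.mem_union]
    refine Or.inr ?_
    rw [Finset.mem_image]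
    refine ⟨![S.orderEmbOfFin hSc i, S.orderEmbOfFin hSc j, S.orderEmbOfFin hSc l,
      S.orderEmbOfFin hSc m], ?_, rfl⟩
    rw [hB4, Finset.mem_filter]
    exact ⟨mem_univ _, inj4 (hne i j h1) (hne i l h2) (hne i m h3) (hne j l h4) (hne j m h5)
      (hne l m h6), hcop⟩

lemma avg3 {α : Type} [Fintype α] [Nonempty α] (X1 X2 X3 : α → ℝ) (h1 : ∀ f, 0 ≤ X1 f)
    (h2 : ∀ f, 0 ≤ X2 f) (h3 : ∀ f, 0 ≤ X3 f) (a b c : ℝ) (ha : 0 < a) (hb : 0 < b) (hc : 0 < c)
    (S1 : ∑ f, X1 f ≤ a / 4 * Fintype.card α) (S2 : ∑ f, X2 f ≤ b * Fintype.card α)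
    (S3 : ∑ f, X3 f ≤ c * Fintype.card α) :
    ∃ f, X1 f ≤ a ∧ X2 f ≤ 3 * b ∧ X3 f ≤ 3 * c := by
  have hsum : ∑ f : α, (X1 f / a + X2 f / (4 * b) + X3 f / (4 * c))
      ≤ ∑ _f : α, (3 / 4 : ℝ) := by
    rw [Finset.sum_add_distrib, Finset.sum_add_distrib, ← Finset.sum_div, ← Finset.sum_div,
      ← Finset.sum_div, Finset.sum_const, Finset.card_univ, nsmul_eq_mul]
    have t1 : (∑ f, X1 f) / a ≤ (Fintype.card α : ℝ) / 4 := by
      rw [div_le_iff₀ ha]; linarith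
    have t2 : (∑ f, X2 f) / (4 * b) ≤ (Fintype.card α : ℝ) / 4 := by
      rw [div_le_iff₀ (by positivity)]; linarith
    have t3 : (∑ f, X3 f) / (4 * c) ≤ (Fintype.card α : ℝ) / 4 := by
      rw [div_le_iff₀ (by positivity)]; linarith
    linarith
  obtain ⟨f, -, hf⟩ := Finset.exists_le_of_sum_le Finset.univ_nonempty hsum
  have p1 : 0 ≤ X1 f / a := div_nonneg (h1 f) ha.le
  have p2 : 0 ≤ X2 f / (4 * b) := div_nonneg (h2 f) (by positivity)
  have p3 : 0 ≤ X3 f / (4 * c) := div_nonneg (h3 f) (by positivity)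
  refine ⟨f, ?_, ?_, ?_⟩
  · have : X1 f / a ≤ 1 := by linarith
    rwa [div_le_one ha] at this
  · have : X2 f / (4 * b) ≤ 3 / 4 := by linarith
    rw [div_le_iff₀ (by positivity)] at this
    linarith
  · have : X3 f / (4 * c) ≤ 3 / 4 := by linarith
    rw [div_le_iff₀ (by positivity)] at this
    linarith

lemma real_part (c1 c2 c0 H N L : ℝ) (hc1 : 0 < c1) (hc2 : 0 < c2)
    (hc0 : c0 = 1 / (4 * (8 + 16 * c1 + 16 * c2))) (hH : 1 ≤ H) (hN : 0 < N) (hL : 1 / 2 ≤ L)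
    (hh : H ^ 3 * L ≤ c0 * N ^ 3) :
    4 * H ^ 2 / N ^ 3 + 8 * c1 * H ^ 3 / N ^ 3 + 16 * c2 * H ^ 4 * L / N ^ 3 ≤ H / 4 := by
  have hN3 : (0 : ℝ) < N ^ 3 := by positivity
  have hc0pos : 0 < c0 := by rw [hc0]; positivity
  have hH0 : 0 < H := by linarith
  have h3 : H ^ 3 ≤ 2 * c0 * N ^ 3 := by
    have : H ^ 3 * (1 / 2) ≤ H ^ 3 * L := by gcongr
    linarith
  have h23 : H ^ 2 ≤ H ^ 3 := by
    have : H ^ 2 * 1 ≤ H ^ 2 * H := by gcongr
    nlinarith
  have e1 : 4 * H ^ 2 / N ^ 3 ≤ 8 * c0 := by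
    rw [div_le_iff₀ hN3]; linarith
  have e2 : 8 * c1 * H ^ 3 / N ^ 3 ≤ 16 * c1 * c0 := by
    rw [div_le_iff₀ hN3]
    have : 8 * c1 * H ^ 3 ≤ 8 * c1 * (2 * c0 * N ^ 3) := by gcongr
    linarith
  have e3 : 16 * c2 * H ^ 4 * L / N ^ 3 ≤ 16 * c2 * c0 * H := by
    rw [div_le_iff₀ hN3]
    have : 16 * c2 * H * (H ^ 3 * L) ≤ 16 * c2 * H * (c0 * N ^ 3) := by gcongr
    nlinarith
  have e4 : (8 + 16 * c1 + 16 * c2) * c0 = 1 / 4 := by
    rw [hc0]; field_simp
  have e5 : 8 * c0 ≤ 8 * c0 * H := by nlinarith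
  have e6 : 16 * c1 * c0 ≤ 16 * c1 * c0 * H := by
    have : 0 < 16 * c1 * c0 := by positivity
    nlinarith
  have e7 : (8 + 16 * c1 + 16 * c2) * c0 * H = 1 / 4 * H := by rw [e4]
  linarith

lemma exists_f (hone : P1_one) (c1 c2 c0 : ℝ) (hc1 : 0 < c1) (hc2 : 0 < c2)
    (hc0 : c0 = 1 / (4 * (8 + 16 * c1 + 16 * c2)))
    (Hc1 : ∀ (N : ℕ) (y : Pos N),
      ((univ.filter (fun t : Pos N × Pos N => Col y t.1 t.2)).card : ℝ) ≤ c1 * (N : ℝ) ^ 3)
    (Hc2 : ∀ N : ℕ, 2 ≤ N → ∀ y : Pos N,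
      ((univ.filter (fun t : Pos N × Pos N × Pos N => Cop y t.1 t.2.1 t.2.2)).card : ℝ)
        ≤ c2 * (N : ℝ) ^ 6 * Real.log N)
    (N : ℕ) (hN : 2 ≤ N) (h : ℕ) (hpos : 0 < h)
    (hh : (h : ℝ) ^ 3 * Real.log N ≤ c0 * (N : ℝ) ^ 3) :
    ∃ f : Fin (2 * h) → Pos N,
      ((Fq 2 (fun (t : Fin 2 → Pos N) (_ : Unit) => t 0 = t 1) f : ℝ)
        + Fq 3 (fun (t : Fin 3 → Pos N) (_ : Unit) => Col (t 0) (t 1) (t 2)) f
        + Fq 4 (fun (t : Fin 4 → Pos N) (_ : Unit) => Cop (t 0) (t 1) (t 2) (t 3)) f ≤ h) ∧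
      (Fq 2 (fun (t : Fin 2 → Pos N) (z : Pos N × Pos N) => Cop (t 0) (t 1) z.1 z.2) f : ℝ)
        ≤ 3 * (4 * c2 * h ^ 2 * N ^ 3 * Real.log N) ∧
      (Fq 3 (fun (t : Fin 3 → Pos N) (z : Pos N) => Cop (t 0) (t 1) (t 2) z) f : ℝ)
        ≤ 3 * (8 * c2 * h ^ 3 * Real.log N) := by
  have : NeZero N := ⟨by omega⟩
  have hNr : (2 : ℝ) ≤ N := by exact_mod_cast hN
  have hNpos : (0 : ℝ) < N := by linarith
  have hlog : (1 : ℝ) / 2 ≤ Real.log N := by
    have h1 : Real.log 2 ≤ Real.log N := Real.log_le_log (by norm_num) hNr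
    have h2 := Real.log_two_gt_d9
    linarith
  have hlogpos : 0 < Real.log N := by linarith
  have hh1 : (1 : ℝ) ≤ h := by exact_mod_cast hpos
  have hhpos : (0 : ℝ) < h := by linarith
  have hcardJ : (Fintype.card (Fin (2 * h)) : ℝ) = 2 * h := by
    rw [Fintype.card_fin]; push_cast; ring
  have hcardP : (Fintype.card (Pos N) : ℝ) = (N : ℝ) ^ 3 := by
    rw [cardPos]; push_cast; ring
  generalize hL : Real.log N = L at *
  -- the five averages
  have Ea := avgR (J := Fin (2 * h)) hone 2 (fun (t : Fin 2 → Pos N) (_ : Unit) => t 0 = t 1)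
    ((N : ℝ) ^ 3) (by exact_mod_cast Ka N)
  have Eb := avgR (J := Fin (2 * h)) hone 3
    (fun (t : Fin 3 → Pos N) (_ : Unit) => Col (t 0) (t 1) (t 2))
    ((N : ℝ) ^ 3 * (c1 * (N : ℝ) ^ 3)) (Kb N c1 (Hc1 N))
  have Ec := avgR (J := Fin (2 * h)) hone 4
    (fun (t : Fin 4 → Pos N) (_ : Unit) => Cop (t 0) (t 1) (t 2) (t 3))
    ((N : ℝ) ^ 3 * (c2 * (N : ℝ) ^ 6 * L)) (Kc N _ (by rw [← hL]; exact Hc2 N hN))
  have Ed := avgR (J := Fin (2 * h)) hone 2
    (fun (t : Fin 2 → Pos N) (z : Pos N × Pos N) => Cop (t 0) (t 1) z.1 z.2)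
    ((N : ℝ) ^ 3 * (c2 * (N : ℝ) ^ 6 * L)) (Kd N _ (by rw [← hL]; exact Hc2 N hN))
  have Ee := avgR (J := Fin (2 * h)) hone 3
    (fun (t : Fin 3 → Pos N) (z : Pos N) => Cop (t 0) (t 1) (t 2) z)
    ((N : ℝ) ^ 3 * (c2 * (N : ℝ) ^ 6 * L)) (Ke N _ (by rw [← hL]; exact Hc2 N hN))
  have hQ : (Fintype.card (Pos N) : ℝ) ^ Fintype.card (Fin (2 * h))
      = (Fintype.card (Fin (2 * h) → Pos N) : ℝ) := by
    rw [← Nat.cast_pow, ← Fintype.card_fun]
  rw [hQ, hcardJ, hcardP] at Ea Eb Ec Ed Ee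
  have Ea' : (2 * (h : ℝ)) ^ 2 * (N : ℝ) ^ 3 / ((N : ℝ) ^ 3) ^ 2 = 4 * h ^ 2 / N ^ 3 := by
    field_simp; ring
  have Eb' : (2 * (h : ℝ)) ^ 3 * ((N : ℝ) ^ 3 * (c1 * (N : ℝ) ^ 3)) / ((N : ℝ) ^ 3) ^ 3
      = 8 * c1 * h ^ 3 / N ^ 3 := by
    field_simp; ring
  have Ec' : (2 * (h : ℝ)) ^ 4 * ((N : ℝ) ^ 3 * (c2 * (N : ℝ) ^ 6 * L)) / ((N : ℝ) ^ 3) ^ 4
      = 16 * c2 * h ^ 4 * L / N ^ 3 := by
    field_simp; ring
  have Ed' : (2 * (h : ℝ)) ^ 2 * ((N : ℝ) ^ 3 * (c2 * (N : ℝ) ^ 6 * L)) / ((N : ℝ) ^ 3) ^ 2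
      = 4 * c2 * h ^ 2 * N ^ 3 * L := by
    field_simp; ring
  have Ee' : (2 * (h : ℝ)) ^ 3 * ((N : ℝ) ^ 3 * (c2 * (N : ℝ) ^ 6 * L)) / ((N : ℝ) ^ 3) ^ 3
      = 8 * c2 * h ^ 3 * L := by
    field_simp; ring
  rw [Ea'] at Ea
  rw [Eb'] at Eb
  rw [Ec'] at Ec
  rw [Ed'] at Ed
  rw [Ee'] at Ee
  have hE1 := real_part c1 c2 c0 h N L hc1 hc2 hc0 hh1 hNpos hlog hh
  have hQpos : (0 : ℝ) ≤ (Fintype.card (Fin (2 * h) → Pos N) : ℝ) := Nat.cast_nonneg _
  refine avg3 (α := Fin (2 * h) → Pos N)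
    (fun f => (Fq 2 (fun (t : Fin 2 → Pos N) (_ : Unit) => t 0 = t 1) f : ℝ)
        + Fq 3 (fun (t : Fin 3 → Pos N) (_ : Unit) => Col (t 0) (t 1) (t 2)) f
        + Fq 4 (fun (t : Fin 4 → Pos N) (_ : Unit) => Cop (t 0) (t 1) (t 2) (t 3)) f)
    (fun f => (Fq 2 (fun (t : Fin 2 → Pos N) (z : Pos N × Pos N) =>
      Cop (t 0) (t 1) z.1 z.2) f : ℝ))
    (fun f => (Fq 3 (fun (t : Fin 3 → Pos N) (z : Pos N) => Cop (t 0) (t 1) (t 2) z) f : ℝ))
    (fun f => by positivity) (fun f => by positivity) (fun f => by positivity)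
    h (4 * c2 * h ^ 2 * N ^ 3 * L) (8 * c2 * h ^ 3 * L) hhpos (by positivity) (by positivity)
    ?_ Ed Ee
  rw [Finset.sum_add_distrib, Finset.sum_add_distrib]
  have := mul_le_mul_of_nonneg_right hE1 hQpos
  linarith

theorem shub : P1_one → G2_col → G3_cop → S_hub := by
  intro hone hcol hcop
  obtain ⟨c1, hc1, Hc1⟩ := hcol
  obtain ⟨c2, hc2, Hc2⟩ := hcop
  refine ⟨24 * c2, 1 / (4 * (8 + 16 * c1 + 16 * c2)), by positivity, by positivity, ?_⟩
  intro N hN h hh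
  rcases Nat.eq_zero_or_pos h with rfl | hpos
  · refine ⟨fun i => i.elim0, fun i => i.elim0, fun i => i.elim0, fun i => i.elim0, ?_, ?_⟩
    · simp
    · simp
  have hlogpos : 0 ≤ Real.log N := Real.log_natCast_nonneg N
  obtain ⟨f, f1, f2, f3⟩ := exists_f hone c1 c2 _ hc1 hc2 rfl Hc1 Hc2 N hN h hpos hh
  obtain ⟨e, he, hY, hYcol, hYcop⟩ := deletion N h f (by exact_mod_cast f1)
  refine ⟨fun i => f (e i), hY, hYcol, hYcop, ?_, ?_⟩
  · have hle := sum_le_Fq 2 (fun (t : Fin 2 → Pos N) (z : Pos N × Pos N) => Cop (t 0) (t 1) z.1 z.2)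
      f (univ.filter (fun t : Fin h × Fin h => t.1 ≠ t.2)) (fun t => ![e t.1, e t.2])
      (by
        intro a _ b _ hab
        have h0 := congrFun hab 0
        have h1 := congrFun hab 1
        exact Prod.ext (he h0) (he h1))
      (by
        intro a ha
        rw [Finset.mem_filter] at ha
        exact inj2 (fun h' => ha.2 (he h')))
    have hle' : ∑ t ∈ univ.filter (fun t : Fin h × Fin h => t.1 ≠ t.2),
      ((univ.filter (fun z : Pos N × Pos N => Cop (f (e t.1)) (f (e t.2)) z.1 z.2)).card : ℝ)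
        ≤ (Fq 2 (fun (t : Fin 2 → Pos N) (z : Pos N × Pos N) =>
          Cop (t 0) (t 1) z.1 z.2) f : ℝ) := by
      exact_mod_cast hle
    refine hle'.trans (f2.trans ?_)
    have : 0 ≤ c2 * h ^ 2 * N ^ 3 * Real.log N := by positivity
    nlinarith
  · have hle := sum_le_Fq 3 (fun (t : Fin 3 → Pos N) (z : Pos N) => Cop (t 0) (t 1) (t 2) z)
      f (univ.filter (fun t : Fin h × Fin h × Fin h => t.1 ≠ t.2.1 ∧ t.1 ≠ t.2.2 ∧
        t.2.1 ≠ t.2.2)) (fun t => ![e t.1, e t.2.1, e t.2.2])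
      (by
        intro a _ b _ hab
        have h0 := congrFun hab 0
        have h1 := congrFun hab 1
        have h2 := congrFun hab 2
        exact Prod.ext (he h0) (Prod.ext (he h1) (he h2)))
      (by
        intro a ha
        rw [Finset.mem_filter] at ha
        exact inj3 (fun h' => ha.2.1 (he h')) (fun h' => ha.2.2.1 (he h'))
          (fun h' => ha.2.2.2 (he h')))
    have hle' : ∑ t ∈ univ.filter (fun t : Fin h × Fin h × Fin h => t.1 ≠ t.2.1 ∧ t.1 ≠ t.2.2 ∧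
        t.2.1 ≠ t.2.2),
      ((univ.filter (fun z : Pos N => Cop (f (e t.1)) (f (e t.2.1)) (f (e t.2.2)) z)).card : ℝ)
        ≤ (Fq 3 (fun (t : Fin 3 → Pos N) (z : Pos N) => Cop (t 0) (t 1) (t 2) z) f : ℝ) := by
      exact_mod_cast hle
    refine hle'.trans (f3.trans ?_)
    have : 0 ≤ c2 * h ^ 3 * Real.log N := by positivity
    nlinarith

end

end Pool.Agent.TH737.HUB
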