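import Pool.Agent.TH636.BC.K0

/-!
# `K0` is a consequence of the axioms (job BC-7 of helper636)
-/

set_option autoImplicit false

namespace Pool.Agent.TH737.J1550

open Pool.Agent.TH672 hiding inst robinson code con conAt Step IsProof strs Proves
open Pool.Agent.TH636.BC

/-! ### the coincidence lemma -/

theorem sat_congr {κ : Type} {S : Str κ} : ∀ {φ : Fm κ} {v w : ℕ → S.M},
    (∀ x, φ.Free x → v x = w x) → (Fm.Sat S φ v ↔ Fm.Sat S φ w) := by
  intro φ
  induction φ with
  | bot => intro v w _; rfl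
  | eq x y => intro v w h; simp [h x (Or.inl rfl), h y (Or.inr rfl)]
  | zero x => intro v w h; simp [h x rfl]
  | succ x y => intro v w h; simp [h x (Or.inl rfl), h y (Or.inr rfl)]
  | add x y z =>
    intro v w h
    simp [h x (Or.inl rfl), h y (Or.inr (Or.inl rfl)), h z (Or.inr (Or.inr rfl))]
  | mul x y z =>
    intro v w h
    simp [h x (Or.inl rfl), h y (Or.inr (Or.inl rfl)), h z (Or.inr (Or.inr rfl))]
  | op i a b c d =>
    intro v w h
    simp [h a (Or.inl rfl), h b (Or.inr (Or.inl rfl)), h c (Or.inr (Or.inr (Or.inl rfl))),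
      h d (Or.inr (Or.inr (Or.inr rfl)))]
  | imp φ ψ ih ih' =>
    intro v w h
    simp only [Fm.sat_imp]
    rw [ih fun x hx => h x (Or.inl hx), ih' fun x hx => h x (Or.inr hx)]
  | all u φ ih =>
    intro v w h
    simp only [Fm.sat_all]
    refine forall_congr' fun a => ih fun x hx => ?_
    unfold upd
    split_ifs with hu
    · rfl
    · exact h x ⟨hu, hx⟩

/-! ### free variables -/

theorem free_blk {y : ℕ} {ψ : Fml} {n : ℕ} (h : (blk^[n] ψ).Free y) : y = 0 ∨ ψ.Free y := by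
  induction n with
  | zero => exact Or.inr h
  | succ n ih =>
    rw [Function.iterate_succ_apply'] at h
    simp only [blk, Fm.Free] at h
    rcases h with ⟨h1, (h2 | h2) | ⟨h3, (h4 | h4) | h5⟩⟩
    · exact Or.inl h2
    · exact absurd h2 h1
    · exact absurd h4 h3
    · exact absurd h4 h1
    · exact ih h5

theorem free_inst {x n y : ℕ} {φ : Fml} (h : (inst x n φ).Free y) : y ≠ 0 ∧ y ≠ x ∧ φ.Free y := by
  simp only [inst, Fm.Free] at h
  obtain ⟨h1, h2 | h2⟩ := h
  · exact absurd h2 h1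
  · rcases free_blk h2 with h3 | h3
    · exact absurd h3 h1
    · simp only [Fm.Free] at h3
      obtain ⟨h4, (h5 | h5) | h6⟩ := h3
      · exact absurd h5 h4
      · exact absurd h5 h1
      · exact ⟨h1, h4, h6⟩

/-! ### numerals in models of Robinson's axioms -/

/-- numerals of a structure -/
structure Rb (S : Str ℕ) where
  nm : ℕ → S.M
  z : ∀ a, S.zero a ↔ a = nm 0
  s : ∀ n a, S.succ (nm n) a ↔ a = nm (n + 1)
  add : ∀ m n a, S.add (nm m) (nm n) a ↔ a = nm (m + n)
  mul : ∀ m n a, S.mul (nm m) (nm n) a ↔ a = nm (m * n)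

theorem exists_rb (S : Str ℕ) (h : ∀ φ ∈ robinson, ∀ v : ℕ → S.M, Fm.Sat S φ v) :
    Nonempty (Rb S) := by
  obtain ⟨m0⟩ := S.ne
  have h1 : ∃ a, S.zero a := by
    have := h (.ex 0 (.zero 0)) (by simp [robinson]) (fun _ => m0)
    simpa using this
  have h2 : ∀ a b, S.zero a → S.zero b → a = b := by
    have := h (.all 0 (.all 1 (.imp (.zero 0) (.imp (.zero 1) (.eq 0 1))))) (by simp [robinson])
      (fun _ => m0)
    simpa [upd] using this
  have h3 : ∀ a, ∃ b, S.succ a b := by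
    have := h (.all 0 (.ex 1 (.succ 0 1))) (by simp [robinson]) (fun _ => m0)
    simpa [upd] using this
  have h4 : ∀ a b c, S.succ a b → S.succ a c → b = c := by
    have := h (.all 0 (.all 1 (.all 2 (.imp (.succ 0 1) (.imp (.succ 0 2) (.eq 1 2))))))
      (by simp [robinson]) (fun _ => m0)
    simpa [upd] using this
  have h6 : ∀ a b c d, S.add a b c → S.add a b d → c = d := by
    have := h (.all 0 (.all 1 (.all 2 (.all 3 (.imp (.add 0 1 2) (.imp (.add 0 1 3) (.eq 2 3)))))))
      (by simp [robinson]) (fun _ => m0)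
    simpa [upd] using this
  have h8 : ∀ a b c d, S.mul a b c → S.mul a b d → c = d := by
    have := h (.all 0 (.all 1 (.all 2 (.all 3 (.imp (.mul 0 1 2) (.imp (.mul 0 1 3) (.eq 2 3)))))))
      (by simp [robinson]) (fun _ => m0)
    simpa [upd] using this
  have h9 : ∀ a b, S.zero b → S.add a b a := by
    have := h (.all 0 (.all 1 (.imp (.zero 1) (.add 0 1 0)))) (by simp [robinson]) (fun _ => m0)
    simpa [upd] using this
  have h10 : ∀ a b b' c c', S.succ b b' → S.add a b c → S.succ c c' → S.add a b' c' := by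
    have := h (.all 0 (.all 1 (.all 2 (.all 3 (.all 4 (.imp (.succ 1 2) (.imp (.add 0 1 3)
      (.imp (.succ 3 4) (.add 0 2 4))))))))) (by simp [robinson]) (fun _ => m0)
    simpa [upd] using this
  have h11 : ∀ a b, S.zero b → S.mul a b b := by
    have := h (.all 0 (.all 1 (.imp (.zero 1) (.mul 0 1 1)))) (by simp [robinson]) (fun _ => m0)
    simpa [upd] using this
  have h12 : ∀ a b b' c c', S.succ b b' → S.mul a b c → S.add c a c' → S.mul a b' c' := by
    have := h (.all 0 (.all 1 (.all 2 (.all 3 (.all 4 (.imp (.succ 1 2) (.imp (.mul 0 1 3)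
      (.imp (.add 3 0 4) (.mul 0 2 4))))))))) (by simp [robinson]) (fun _ => m0)
    simpa [upd] using this
  obtain ⟨z0, hz0⟩ := h1
  choose sc hsc using h3
  let nm : ℕ → S.M := fun n => sc^[n] z0
  have n0 : nm 0 = z0 := rfl
  have ns : ∀ n, nm (n + 1) = sc (nm n) := fun n => Function.iterate_succ_apply' sc n z0
  have hz : ∀ a, S.zero a ↔ a = nm 0 := fun a =>
    ⟨fun ha => h2 _ _ ha hz0, fun ha => by rw [ha]; exact hz0⟩
  have hs : ∀ n a, S.succ (nm n) a ↔ a = nm (n + 1) := fun n a =>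
    ⟨fun ha => h4 _ _ _ ha (by rw [ns]; exact hsc _), fun ha => by rw [ha, ns]; exact hsc _⟩
  have ha : ∀ m n, S.add (nm m) (nm n) (nm (m + n)) := by
    intro m n
    induction n with
    | zero => exact h9 _ _ ((hz _).2 rfl)
    | succ n ih => exact h10 _ _ _ _ _ ((hs _ _).2 rfl) ih ((hs _ _).2 rfl)
  have hm : ∀ m n, S.mul (nm m) (nm n) (nm (m * n)) := by
    intro m n
    induction n with
    | zero => exact h11 _ _ ((hz _).2 rfl)
    | succ n ih =>
      refine h12 _ _ _ _ _ ((hs _ _).2 rfl) ih ?_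
      rw [Nat.mul_succ]
      exact ha _ _
  exact ⟨{
    nm := nm
    z := hz
    s := hs
    add := fun m n a => ⟨fun h => h6 _ _ _ _ h (ha m n), fun h => by rw [h]; exact ha m n⟩
    mul := fun m n a => ⟨fun h => h8 _ _ _ _ h (hm m n), fun h => by rw [h]; exact hm m n⟩ }⟩

section inst

variable {S : Str ℕ} (R : Rb S)

include R in
theorem sat_blk {ψ : Fml} (h1 : ¬ ψ.Free 1) (n : ℕ) : ∀ (k : ℕ) (w : ℕ → S.M), w 0 = R.nm k →
    (Fm.Sat S (blk^[n] ψ) w ↔ Fm.Sat S ψ (upd w 0 (R.nm (k + n)))) := by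
  induction n with
  | zero =>
    intro k w hw
    rw [Function.iterate_zero, id, add_zero, ← hw, upd_self]
  | succ n ih =>
    intro k w hw
    rw [Function.iterate_succ_apply']
    have e1 : Fm.Sat S (blk (blk^[n] ψ)) w ↔
        Fm.Sat S (blk^[n] ψ) (upd (upd w 1 (R.nm (k + 1))) 0 (R.nm (k + 1))) := by
      simp only [blk, Fm.sat_all, Fm.sat_imp, Fm.sat_succ, Fm.sat_eq]
      constructor
      · intro h
        refine h (R.nm (k + 1)) ?_ (R.nm (k + 1)) ?_
        · simp [upd, hw, R.s]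
        · simp [upd]
      · intro h a ha b hb
        have ha' : a = R.nm (k + 1) := by simpa [upd, hw, R.s] using ha
        have hb' : b = a := by simpa [upd] using hb
        rw [hb', ha']
        exact h
    rw [e1, ih (k + 1) _ (by simp)]
    have e2 : k + 1 + n = k + (n + 1) := by ring
    rw [e2]
    refine sat_congr fun x hx => ?_
    by_cases hx0 : x = 0
    · subst hx0; simp
    · have hx1 : x ≠ 1 := fun h => h1 (h ▸ hx)
      simp [upd, hx0, hx1]

include R in
theorem sat_inst {φ : Fml} {x : ℕ} (hx0 : x ≠ 0) (hx1 : x ≠ 1) (h0 : ¬ φ.Free 0)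
    (h1 : ¬ φ.Free 1) (n : ℕ) (v : ℕ → S.M) :
    Fm.Sat S (inst x n φ) v ↔ Fm.Sat S φ (upd v x (R.nm n)) := by
  have hf : ¬ (Fm.all x (Fm.imp (Fm.eq x 0) φ)).Free 1 := by
    simp only [Fm.Free]
    rintro ⟨_, (h | h) | h⟩
    · exact hx1 h.symm
    · exact one_ne_zero h
    · exact h1 h
  have e1 : Fm.Sat S (inst x n φ) v ↔
      Fm.Sat S (blk^[n] (.all x (.imp (.eq x 0) φ))) (upd v 0 (R.nm 0)) := by
    simp only [inst, Fm.sat_all, Fm.sat_imp, Fm.sat_zero, upd_same, R.z]
    exact ⟨fun h => h _ rfl, fun h a ha => by rw [ha]; exact h⟩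
  rw [e1, sat_blk R hf n 0 _ (by simp), zero_add]
  have e2 : Fm.Sat S (.all x (.imp (.eq x 0) φ)) (upd (upd v 0 (R.nm 0)) 0 (R.nm n)) ↔
      Fm.Sat S φ (upd (upd (upd v 0 (R.nm 0)) 0 (R.nm n)) x (R.nm n)) := by
    have hx0' : (0 : ℕ) ≠ x := hx0.symm
    simp only [Fm.sat_all, Fm.sat_imp, Fm.sat_eq]
    constructor
    · intro h
      refine h (R.nm n) ?_
      simp [upd, hx0']
    · intro h a ha
      have ha' : a = R.nm n := by simpa [upd, hx0'] using ha
      rw [ha']
      exact h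
  rw [e2]
  refine sat_congr fun y hy => ?_
  have hy0 : y ≠ 0 := fun h => h0 (h ▸ hy)
  simp [upd, hy0]

end inst

/-! ### strings -/

theorem num_nil : num [] = 0 := rfl

theorem num_snoc (u : List Bool) (b : Bool) :
    num (u ++ [b]) = 2 * num u + if b then 2 else 1 := by
  simp [num]

theorem num_append (w σ : List Bool) : num (w ++ σ) = 2 ^ σ.length * num w + num σ := by
  induction σ using List.reverseRecOn with
  | nil => simp [num]
  | append_singleton σ b ih =>
    have h1 : ∀ u : List Bool, num (u ++ [b]) = 2 * num u + if b then 2 else 1 := by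
      intro u
      simp [num]
    rw [← List.append_assoc, h1, h1, ih, List.length_append, List.length_singleton, pow_succ]
    ring

theorem str_blk (ψ : Fml) (n : ℕ) : str (blk^[n] ψ) = (List.replicate n bs).flatten ++ str ψ := by
  induction n with
  | zero => simp
  | succ n ih =>
    rw [Function.iterate_succ_apply']
    have : str (blk (blk^[n] ψ)) = bs ++ str (blk^[n] ψ) := by
      simp [blk, str, bs]
    rw [this, ih, List.replicate_succ, List.flatten_cons, List.append_assoc]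

theorem str_inst (n : ℕ) (φ : Fml) :
    str (inst 29 n φ) = hd ++ (List.replicate n bs).flatten ++ tl ++ str φ := by
  simp [inst, str, str_blk, hd, tl]

/-! ### the computation of strings -/

attribute [local irreducible] Pool.Agent.TH636.BC.inst Pool.Agent.TH672.num

section comp

variable {S : Str ℕ} (R : Rb S)

include R in
theorem sat_appn {ψ : Fml} (h0 : ¬ ψ.Free 0) (h1 : ¬ ψ.Free 1) (σ : List Bool) {w : ℕ}
    {v : ℕ → S.M} (hv : v 17 = R.nm w) (h : Fm.Sat S (appn σ ψ) v) :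
    Fm.Sat S ψ (upd (upd (upd (upd v 21 (R.nm (2 ^ σ.length))) 23 (R.nm (num σ))) 25
      (R.nm (2 ^ σ.length * w))) 27 (R.nm (2 ^ σ.length * w + num σ))) := by
  have hf : ∀ y, y = 0 ∨ y = 1 → ¬ (Fm.all 25 (Fm.imp (Fm.mul 21 17 25)
      (Fm.all 27 (Fm.imp (Fm.add 25 23 27) ψ)))).Free y := by
    rintro y (rfl | rfl) hy
    · simp [Fm.Free] at hy
      exact h0 hy
    · simp [Fm.Free] at hy
      exact h1 hy
  unfold appn at h
  rw [sat_inst R (by norm_num) (by norm_num) (fun hy => hf 0 (Or.inl rfl) (free_inst hy).2.2)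
      (fun hy => hf 1 (Or.inr rfl) (free_inst hy).2.2),
    sat_inst R (by norm_num) (by norm_num) (hf 0 (Or.inl rfl)) (hf 1 (Or.inr rfl))] at h
  simp only [Fm.sat_all, Fm.sat_imp, Fm.sat_mul, Fm.sat_add] at h
  refine h _ ?_ _ ?_
  · simp [upd, hv, R.mul]
  · simp [upd, R.add]

include R in
theorem gen_E0 (A : List Bool)
    (h : ∀ v : ℕ → S.M, Fm.Sat S (.all 15 (.imp (.zero 15) (inst 17 (num A) (Ef 15 17)))) v) :
    S.op 4 (R.nm 0) (R.nm (num A)) (R.nm (num A)) (R.nm (num A)) := by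
  generalize num A = a at h ⊢
  have h1 := h (fun _ => R.nm 0)
  simp only [Fm.sat_all, Fm.sat_imp, Fm.sat_zero, upd_same, R.z] at h1
  have h2 := h1 _ rfl
  rw [sat_inst R (by norm_num) (by norm_num) (by simp [Ef, Fm.Free]) (by simp [Ef, Fm.Free])] at h2
  simpa [Ef, upd] using h2

include R in
theorem gen_E1 (B : List Bool)
    (h : ∀ v : ℕ → S.M, Fm.Sat S (.all 15 (.all 17 (.imp (Ef 15 17) (.all 19 (.imp (.succ 15 19)
      (appn B (Ef 19 27))))))) v) (k w : ℕ)
    (hk : S.op 4 (R.nm k) (R.nm w) (R.nm w) (R.nm w)) :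
    S.op 4 (R.nm (k + 1)) (R.nm (2 ^ B.length * w + num B)) (R.nm (2 ^ B.length * w + num B))
      (R.nm (2 ^ B.length * w + num B)) := by
  have h1 := h (fun _ => R.nm 0)
  simp only [Fm.sat_all, Fm.sat_imp] at h1
  have h2 := h1 (R.nm k) (R.nm w) (by simpa [Ef, upd] using hk) (R.nm (k + 1))
    (by simp [upd, R.s])
  have h3 := sat_appn R (ψ := Ef 19 27) (by simp [Ef, Fm.Free]) (by simp [Ef, Fm.Free]) B
    (w := w) (by simp [upd]) h2
  generalize 2 ^ B.length * w + num B = a at h3 ⊢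
  simpa [Ef, upd] using h3

include R in
theorem gen_C0 (T : List Bool)
    (h : ∀ v : ℕ → S.M, Fm.Sat S (.all 15 (.all 17 (.imp (Ef 15 17) (.all 19 (.imp (.zero 19)
      (appn T (Cf 15 19 27))))))) v) (k w : ℕ)
    (hk : S.op 4 (R.nm k) (R.nm w) (R.nm w) (R.nm w)) :
    S.op 5 (R.nm k) (R.nm 0) (R.nm (2 ^ T.length * w + num T))
      (R.nm (2 ^ T.length * w + num T)) := by
  have h1 := h (fun _ => R.nm 0)
  simp only [Fm.sat_all, Fm.sat_imp] at h1
  have h2 := h1 (R.nm k) (R.nm w) (by simpa [Ef, upd] using hk) (R.nm 0)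
    (by simp [upd, R.z])
  have h3 := sat_appn R (ψ := Cf 15 19 27) (by simp [Cf, Fm.Free]) (by simp [Cf, Fm.Free]) T
    (w := w) (by simp [upd]) h2
  generalize 2 ^ T.length * w + num T = a at h3 ⊢
  simpa [Cf, upd] using h3

include R in
theorem gen_C1
    (h : ∀ v : ℕ → S.M, Fm.Sat S (.all 15 (.all 17 (.all 19 (.imp (Cf 15 17 19)
      (.all 21 (.imp (.add 17 17 21) (.all 23 (.imp (.succ 21 23) (.all 25 (.imp (.add 19 19 25)
      (.all 27 (.imp (.succ 25 27) (Cf 15 23 27))))))))))))) v) (k a c : ℕ)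
    (hk : S.op 5 (R.nm k) (R.nm a) (R.nm c) (R.nm c)) :
    S.op 5 (R.nm k) (R.nm (2 * a + 1)) (R.nm (2 * c + 1)) (R.nm (2 * c + 1)) := by
  have h1 := h (fun _ => R.nm 0)
  simp only [Fm.sat_all, Fm.sat_imp] at h1
  have h2 := h1 (R.nm k) (R.nm a) (R.nm c) (by simpa [Cf, upd] using hk)
    (R.nm (a + a)) (by simp [upd, R.add]) (R.nm (a + a + 1)) (by simp [upd, R.s])
    (R.nm (c + c)) (by simp [upd, R.add]) (R.nm (c + c + 1)) (by simp [upd, R.s])
  have e1 : 2 * a + 1 = a + a + 1 := by ring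
  have e2 : 2 * c + 1 = c + c + 1 := by ring
  rw [e1, e2]
  simpa [Cf, upd] using h2

include R in
theorem gen_C2
    (h : ∀ v : ℕ → S.M, Fm.Sat S (.all 15 (.all 17 (.all 19 (.imp (Cf 15 17 19)
      (.all 21 (.imp (.add 17 17 21) (.all 23 (.imp (.succ 21 23) (.all 33 (.imp (.succ 23 33)
      (.all 25 (.imp (.add 19 19 25) (.all 27 (.imp (.succ 25 27) (.all 35 (.imp (.succ 27 35)
      (Cf 15 33 35))))))))))))))))) v) (k a c : ℕ)
    (hk : S.op 5 (R.nm k) (R.nm a) (R.nm c) (R.nm c)) :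
    S.op 5 (R.nm k) (R.nm (2 * a + 2)) (R.nm (2 * c + 2)) (R.nm (2 * c + 2)) := by
  have h1 := h (fun _ => R.nm 0)
  simp only [Fm.sat_all, Fm.sat_imp] at h1
  have h2 := h1 (R.nm k) (R.nm a) (R.nm c) (by simpa [Cf, upd] using hk)
    (R.nm (a + a)) (by simp [upd, R.add]) (R.nm (a + a + 1)) (by simp [upd, R.s])
    (R.nm (a + a + 1 + 1)) (by simp [upd, R.s])
    (R.nm (c + c)) (by simp [upd, R.add]) (R.nm (c + c + 1)) (by simp [upd, R.s])
    (R.nm (c + c + 1 + 1)) (by simp [upd, R.s])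
  have e1 : 2 * a + 2 = a + a + 1 + 1 := by ring
  have e2 : 2 * c + 2 = c + c + 1 + 1 := by ring
  rw [e1, e2]
  simpa [Cf, upd] using h2

theorem gen_comp (A B T : List Bool)
    (hE0 : S.op 4 (R.nm 0) (R.nm (num A)) (R.nm (num A)) (R.nm (num A)))
    (hE1 : ∀ k w : ℕ, S.op 4 (R.nm k) (R.nm w) (R.nm w) (R.nm w) →
      S.op 4 (R.nm (k + 1)) (R.nm (2 ^ B.length * w + num B)) (R.nm (2 ^ B.length * w + num B))
        (R.nm (2 ^ B.length * w + num B)))
    (hC0 : ∀ k w : ℕ, S.op 4 (R.nm k) (R.nm w) (R.nm w) (R.nm w) →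
      S.op 5 (R.nm k) (R.nm 0) (R.nm (2 ^ T.length * w + num T))
        (R.nm (2 ^ T.length * w + num T)))
    (hC1 : ∀ k a c : ℕ, S.op 5 (R.nm k) (R.nm a) (R.nm c) (R.nm c) →
      S.op 5 (R.nm k) (R.nm (2 * a + 1)) (R.nm (2 * c + 1)) (R.nm (2 * c + 1)))
    (hC2 : ∀ k a c : ℕ, S.op 5 (R.nm k) (R.nm a) (R.nm c) (R.nm c) →
      S.op 5 (R.nm k) (R.nm (2 * a + 2)) (R.nm (2 * c + 2)) (R.nm (2 * c + 2)))
    (k : ℕ) (σ : List Bool) :
    S.op 5 (R.nm k) (R.nm (num σ))
      (R.nm (num (A ++ (List.replicate k B).flatten ++ T ++ σ)))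
      (R.nm (num (A ++ (List.replicate k B).flatten ++ T ++ σ))) := by
  have hE : ∀ k : ℕ, S.op 4 (R.nm k) (R.nm (num (A ++ (List.replicate k B).flatten)))
      (R.nm (num (A ++ (List.replicate k B).flatten)))
      (R.nm (num (A ++ (List.replicate k B).flatten))) := by
    intro k
    induction k with
    | zero => simpa using hE0
    | succ k ih =>
      have e : num (A ++ (List.replicate (k + 1) B).flatten) =
          2 ^ B.length * num (A ++ (List.replicate k B).flatten) + num B := by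
        rw [← num_append, List.append_assoc, List.replicate_succ', List.flatten_append]
        simp
      rw [e]
      exact hE1 _ _ ih
  induction σ using List.reverseRecOn with
  | nil =>
    have h3 := hC0 _ _ (hE k)
    rw [List.append_nil, num_append (A ++ (List.replicate k B).flatten) T, num_nil]
    exact h3
  | append_singleton σ b ih =>
    rw [← List.append_assoc, num_snoc, num_snoc]
    cases b with
    | false => exact hC1 _ _ _ ih
    | true => exact hC2 _ _ _ ih

end comp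

theorem strs_inst (n : ℕ) (φ : Fml) (Γ : List Fml) :
    strs (inst 29 n φ :: Γ) = hd ++ (List.replicate n bs).flatten ++ tl ++ strs (φ :: Γ) := by
  simp only [strs, List.flatMap_cons, str_inst, List.append_assoc]

theorem code_Ax (P : Fml) : code (Ax P) =
    num (hd ++ (List.replicate (tn P) bs).flatten ++ tl ++ strs (sgf P :: TB)) := by
  rw [← strs_inst]
  rfl

theorem comp_tn {S : Str ℕ} (R : Rb S) (P : Fml)
    (hTE : ∀ φ ∈ TE, ∀ v : ℕ → S.M, Fm.Sat S φ v) :
    S.op 5 (R.nm (tn P)) (R.nm (tn P)) (R.nm (code (Ax P))) (R.nm (code (Ax P))) := by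
  have m1 : (Fm.all 15 (.imp (.zero 15) (inst 17 (num hd) (Ef 15 17)))) ∈ TE :=
    List.mem_cons_self
  have m2 : (Fm.all 15 (.all 17 (.imp (Ef 15 17) (.all 19 (.imp (.succ 15 19)
      (appn bs (Ef 19 27))))))) ∈ TE := List.mem_cons_of_mem _ List.mem_cons_self
  have m3 : (Fm.all 15 (.all 17 (.imp (Ef 15 17) (.all 19 (.imp (.zero 19)
      (appn tl (Cf 15 19 27))))))) ∈ TE :=
    List.mem_cons_of_mem _ (List.mem_cons_of_mem _ List.mem_cons_self)
  have m4 : (Fm.all 15 (.all 17 (.all 19 (.imp (Cf 15 17 19)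
      (.all 21 (.imp (.add 17 17 21) (.all 23 (.imp (.succ 21 23) (.all 25 (.imp (.add 19 19 25)
      (.all 27 (.imp (.succ 25 27) (Cf 15 23 27))))))))))))) ∈ TE :=
    List.mem_cons_of_mem _ (List.mem_cons_of_mem _ (List.mem_cons_of_mem _ List.mem_cons_self))
  have m5 : (Fm.all 15 (.all 17 (.all 19 (.imp (Cf 15 17 19)
      (.all 21 (.imp (.add 17 17 21) (.all 23 (.imp (.succ 21 23) (.all 33 (.imp (.succ 23 33)
      (.all 25 (.imp (.add 19 19 25) (.all 27 (.imp (.succ 25 27) (.all 35 (.imp (.succ 27 35)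
      (Cf 15 33 35))))))))))))))))) ∈ TE :=
    List.mem_cons_of_mem _ (List.mem_cons_of_mem _ (List.mem_cons_of_mem _
      (List.mem_cons_of_mem _ List.mem_cons_self)))
  have s1 := fun v : ℕ → S.M => hTE _ m1 v
  have s2 := fun v : ℕ → S.M => hTE _ m2 v
  have s3 := fun v : ℕ → S.M => hTE _ m3 v
  have s4 := fun v : ℕ → S.M => hTE _ m4 v
  have s5 := fun v : ℕ → S.M => hTE _ m5 v
  have h := gen_comp R hd bs tl (gen_E0 R hd s1) (gen_E1 R bs s2) (gen_C0 R tl s3)
    (gen_C1 R s4) (gen_C2 R s5) (tn P) (strs (sgf P :: TB))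
  rw [code_Ax]
  have e : tn P = num (strs (sgf P :: TB)) := rfl
  generalize num (hd ++ (List.replicate (tn P) bs).flatten ++ tl ++ strs (sgf P :: TB)) = c at h ⊢
  rw [← e] at h
  exact h

theorem free_neg_P {P : Fml} (hP : ∀ x, P.Free x → x = 2 ∨ x = 3 ∨ x = 4) {n y : ℕ}
    (h : (inst 4 n P.neg).Free y) : y = 2 ∨ y = 3 := by
  obtain ⟨_, h2, h3⟩ := free_inst h
  simp only [Fm.neg, Fm.Free, or_false] at h3
  rcases hP y h3 with h | h | h
  · exact Or.inl h
  · exact Or.inr h
  · exact absurd h h2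

theorem k0S : K0S := by
  intro P hP S hS v
  have hTE : ∀ φ ∈ TE, ∀ v : ℕ → S.M, Fm.Sat S φ v := fun φ hφ =>
    hS φ (by simp [Ax, TB, hφ])
  obtain ⟨R⟩ := exists_rb S fun φ hφ => hS φ (by simp [Ax, TB, hφ])
  have hsg : Fm.Sat S (sg P) v := hS _ (by simp [Ax]) v
  have hf0 : ∀ n y, y = 0 ∨ y = 1 → ¬ (inst 4 n P.neg).Free y := by
    intro n y hy h
    rcases free_neg_P hP h with h | h <;> omega
  have hfs : ∀ y, y = 0 ∨ y = 1 → ¬ (sgf P).Free y := by
    intro y hy h
    unfold sgf at h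
    simp only [Fm.Free, Cf, nat, col, lt, Fm.neg] at h
    rcases hy with rfl | rfl
    · simp at h
      exact hf0 _ 0 (Or.inl rfl) h
    · simp at h
      exact hf0 _ 1 (Or.inr rfl) h
  unfold sg at hsg
  rw [sat_inst R (by norm_num) (by norm_num) (hfs 0 (Or.inl rfl)) (hfs 1 (Or.inr rfl))] at hsg
  unfold sgf at hsg
  simp only [Fm.sat_all, Fm.sat_imp] at hsg
  have hC := hsg (R.nm (code (Ax P))) (by simpa [Cf, upd] using comp_tn R P hTE)
  unfold K0
  simp only [Fm.sat_all, Fm.sat_imp]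
  intro a15 a17 a19 a21 h1 h2 h3 a0 h4 a3 h5
  have h6 := hC a3 a17 a19 a21 ?_ ?_ ?_
  · unfold con
    rw [sat_inst R (by norm_num) (by norm_num) (hf0 _ 0 (Or.inl rfl)) (hf0 _ 1 (Or.inr rfl))]
    refine (sat_congr fun x hx => ?_).1 h6
    rcases free_neg_P hP hx with rfl | rfl
    · simp [upd]
    · simp [upd]
  · have e1 : a0 = a15 := by simpa [upd] using h4
    have e2 : a3 = a0 := by simpa [upd] using h5
    subst e2
    subst e1
    simpa [nat, upd] using h1
  · simpa [col, upd] using h2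
  · have e1 : a0 = a15 := by simpa [upd] using h4
    have e2 : a3 = a0 := by simpa [upd] using h5
    subst e2
    subst e1
    simpa [lt, upd] using h3

/-! ### free variables of the axioms -/

theorem free_con (P : Fml) (hP : ∀ x, P.Free x → x = 2 ∨ x = 3 ∨ x = 4) (Γ : List Fml) :
    ∀ x, (con P Γ).Free x → x = 3 := by
  intro x hx
  obtain ⟨_, h2, h3⟩ := free_inst hx
  rcases free_neg_P hP h3 with h | h
  · exact absurd h h2
  · exact h

theorem closed_K0 (P : Fml) (hP : ∀ x, P.Free x → x = 2 ∨ x = 3 ∨ x = 4) : (K0 P).Closed := by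
  intro x hx
  have h := free_con P hP (Ax P) x
  unfold K0 at hx
  generalize con P (Ax P) = ψ at hx h
  simp only [Fm.Free, nat, col, lt, Fm.neg, or_false] at hx
  by_cases hc : ψ.Free x
  · have := h hc
    omega
  · simp only [hc, or_false] at hx
    omega

theorem free_appn {σ : List Bool} {ψ : Fml} {y : ℕ} (h : (appn σ ψ).Free y) :
    y = 17 ∨ (y ≠ 27 ∧ ψ.Free y) := by
  unfold appn at h
  obtain ⟨h0, h1, h2⟩ := free_inst h
  obtain ⟨_, h3, h4⟩ := free_inst h2
  simp only [Fm.Free] at h4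
  by_cases hy : ψ.Free y
  · by_cases h27 : y = 27
    · left
      omega
    · exact Or.inr ⟨h27, hy⟩
  · left
    simp only [hy, or_false] at h4
    omega

theorem closed_sg (P : Fml) (hP : ∀ x, P.Free x → x = 2 ∨ x = 3 ∨ x = 4) : (sg P).Closed := by
  intro x hx
  unfold sg at hx
  obtain ⟨_, h2, h3⟩ := free_inst hx
  unfold sgf at h3
  have h := free_neg_P hP (n := code [Fm.bot]) (y := x)
  generalize inst 4 (code [Fm.bot]) P.neg = ψ at h h3
  simp only [Fm.Free, Cf, nat, col, lt, Fm.neg, or_false] at h3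
  by_cases hc : ψ.Free x
  · have := h hc
    omega
  · simp only [hc, or_false] at h3
    omega

theorem closed_robinson : ∀ φ ∈ robinson, φ.Closed := by
  intro φ hφ x hx
  simp only [robinson, List.mem_cons, List.not_mem_nil, or_false] at hφ
  rcases hφ with rfl | rfl | rfl | rfl | rfl | rfl | rfl | rfl | rfl | rfl | rfl | rfl | rfl |
    rfl | rfl <;>
  · simp only [Fm.Free, Fm.ex, Fm.neg, Fm.or, or_false] at hx
    omega

theorem closed_T0 : ∀ φ ∈ T0, φ.Closed := by
  intro φ hφ x hx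
  simp only [T0, List.mem_cons, List.not_mem_nil, or_false] at hφ
  rcases hφ with rfl | rfl | rfl | rfl | rfl | rfl | rfl | rfl | rfl | rfl | rfl | rfl <;>
  · simp only [Fm.Free, Fm.ex, Fm.neg, Fm.or, Fm.and, nat, lt, ht, col, or_false] at hx
    omega

theorem closed_e1 (n : ℕ) : (Fm.all 15 (.imp (.zero 15) (inst 17 n (Ef 15 17))) : Fml).Closed := by
  intro x hx
  have h := fun h' => free_inst (x := 17) (n := n) (y := x) (φ := Ef 15 17) h'
  generalize inst 17 n (Ef 15 17) = ψ at hx h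
  simp only [Fm.Free] at hx
  by_cases hc : ψ.Free x
  · obtain ⟨_, h1, h2⟩ := h hc
    simp only [Ef, Fm.Free] at h2
    omega
  · simp only [hc, or_false] at hx
    omega

theorem closed_e2 (B : List Bool) : (Fm.all 15 (.all 17 (.imp (Ef 15 17) (.all 19
    (.imp (.succ 15 19) (appn B (Ef 19 27)))))) : Fml).Closed := by
  intro x hx
  have h := fun h' => free_appn (σ := B) (y := x) (ψ := Ef 19 27) h'
  generalize appn B (Ef 19 27) = ψ at hx h
  simp only [Fm.Free, Ef] at hx h
  by_cases hc : ψ.Free x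
  · have h1 := h hc
    omega
  · simp only [hc, or_false] at hx
    omega

theorem closed_e3 (B : List Bool) : (Fm.all 15 (.all 17 (.imp (Ef 15 17) (.all 19
    (.imp (.zero 19) (appn B (Cf 15 19 27)))))) : Fml).Closed := by
  intro x hx
  have h := fun h' => free_appn (σ := B) (y := x) (ψ := Cf 15 19 27) h'
  generalize appn B (Cf 15 19 27) = ψ at hx h
  simp only [Fm.Free, Ef, Cf] at hx h
  by_cases hc : ψ.Free x
  · have h1 := h hc
    omega
  · simp only [hc, or_false] at hx
    omega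

theorem closed_TE : ∀ φ ∈ TE, φ.Closed := by
  intro φ hφ
  unfold TE at hφ
  rcases List.mem_cons.1 hφ with h | hφ
  · rw [h]
    exact closed_e1 _
  rcases List.mem_cons.1 hφ with h | hφ
  · rw [h]
    exact closed_e2 _
  rcases List.mem_cons.1 hφ with h | hφ
  · rw [h]
    exact closed_e3 _
  rcases List.mem_cons.1 hφ with h | hφ
  · rw [h]
    intro x hx
    simp only [Fm.Free, Cf] at hx
    omega
  rcases List.mem_cons.1 hφ with h | hφ
  · rw [h]
    intro x hx
    simp only [Fm.Free, Cf] at hx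
    omega
  · exact absurd hφ List.not_mem_nil

theorem closed_Ax (P : Fml) (hP : ∀ x, P.Free x → x = 2 ∨ x = 3 ∨ x = 4) :
    ∀ φ ∈ Ax P, φ.Closed := by
  intro φ hφ
  unfold Ax at hφ
  rcases List.mem_cons.1 hφ with h | hφ
  · rw [h]
    exact closed_sg P hP
  unfold TB at hφ
  rcases List.mem_append.1 hφ with hφ | hφ
  · rcases List.mem_append.1 hφ with hφ | hφ
    · exact closed_robinson φ hφ
    · exact closed_T0 φ hφ
  · exact closed_TE φ hφ

end Pool.Agent.TH737.J1550
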